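import Mathlib

/-!
The algebra of the generating trees for Q1 of MP_668c10_co.
-/

namespace Pool.Agent.Lib.MP_668c10_co

variable {K : Type*} [CommRing K]

/-- `F(a, b, l) + F(a, b + 1, l - 1) + ... + F(a, b + l - 1, 1)`. -/
def s1 (F : ℕ → ℕ → ℕ → K) : ℕ → ℕ → ℕ → K
  | _, _, 0 => 0
  | a, b, (l + 1) => F a b (l + 1) + s1 F a (b + 1) l

/-- `F(a, b, l) + F(a + 1, b, l - 1) + ... + F(a + l - 1, b, 1)`. -/
def s2 (F : ℕ → ℕ → ℕ → K) : ℕ → ℕ → ℕ → K
  | _, _, 0 => 0
  | a, b, (l + 1) => F a b (l + 1) + s2 F (a + 1) b l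

/-- Children sums of type 1. -/
def step1 (F : ℕ → ℕ → ℕ → K) (a b l : ℕ) : K :=
  (a : K) * F a b l + (b : K) * F (a + 1) (b - 1) l + F a b (l + 1) + s1 F (a + 1) b l

/-- Children sums of type 2. -/
def step2 (F : ℕ → ℕ → ℕ → K) (a b l : ℕ) : K :=
  (a : K) * F a b l + (b : K) * F (a + 1) (b - 1) l + F a b (l + 1) + s2 F a (b + 1) l

/-- The value functions of type 1. -/
def V1 (x : K) : ℕ → ℕ → ℕ → ℕ → K
  | 0 => fun a _ _ => x ^ (a + 1)
  | (R + 1) => fun a b l => step1 (V1 x R) a b l

/-- The value functions of type 2. -/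
def V2 (x : K) : ℕ → ℕ → ℕ → ℕ → K
  | 0 => fun a _ l => x ^ (a + l)
  | (R + 1) => fun a b l => step2 (V2 x R) a b l

/-- The relation `B = A + c`. -/
def Shift (c : K) (F : ℕ → ℕ → ℕ → K) : Prop :=
  ∀ a b l, F a (b + 1) l = F (a + 1) b l + c * F a b l

lemma s2_shift {c : K} {F : ℕ → ℕ → ℕ → K} (h : Shift c F) : Shift c (s2 F) := by
  intro a b l
  induction l generalizing a b with
  | zero => simp [s2]
  | succ l ih =>
    simp only [s2]
    rw [h, ih]
    ring

lemma s1_shift {c : K} {F : ℕ → ℕ → ℕ → K} (h : Shift c F) : Shift c (s1 F) := by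
  intro a b l
  induction l generalizing a b with
  | zero => simp [s1]
  | succ l ih =>
    simp only [s1]
    rw [h, ih]
    ring

lemma step2_shift {c : K} {F : ℕ → ℕ → ℕ → K} (h : Shift c F) : Shift c (step2 F) := by
  intro a b l
  simp only [step2]
  rw [s2_shift h a (b + 1) l, h a b l, h a b (l + 1)]
  rcases b with _ | b
  · simp only [Nat.add_sub_cancel]
    push_cast
    ring
  · simp only [Nat.add_sub_cancel]
    rw [h (a + 1) b l]
    push_cast
    ring

lemma step1_shift {c : K} {F : ℕ → ℕ → ℕ → K} (h : Shift c F) : Shift c (step1 F) := by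
  intro a b l
  simp only [step1]
  rw [s1_shift h (a + 1) b l, h a b l, h a b (l + 1)]
  rcases b with _ | b
  · simp only [Nat.add_sub_cancel]
    push_cast
    ring
  · simp only [Nat.add_sub_cancel]
    rw [h (a + 1) b l]
    push_cast
    ring

lemma V2_shift (x : K) (R : ℕ) : Shift (1 - x) (V2 x R) := by
  induction R with
  | zero => intro a b l; simp only [V2]; ring
  | succ R ih => exact step2_shift ih

/-- `T F a b i j` stands for `F (A^a B^b S^i (S + c)^j)`. -/
def T (c : K) (F : ℕ → ℕ → ℕ → K) (a b : ℕ) : ℕ → ℕ → K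
  | i, 0 => F a b i
  | i, (j + 1) => T c F a b (i + 1) j + c * T c F a b i j

lemma T_shift {c : K} {F : ℕ → ℕ → ℕ → K} (h : Shift c F) (a b i j : ℕ) :
    T c F a (b + 1) i j = T c F (a + 1) b i j + c * T c F a b i j := by
  induction j generalizing i with
  | zero => simp only [T]; exact h a b i
  | succ j ih => simp only [T]; rw [ih, ih]; ring

/-- `T a b 1 (j-1) + T a (b+1) 1 (j-2) + ... + T a (b+j-1) 1 0`. -/
def q (c : K) (F : ℕ → ℕ → ℕ → K) : ℕ → ℕ → ℕ → K
  | _, _, 0 => 0
  | a, b, (j + 1) => T c F a b 1 j + q c F a (b + 1) j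

lemma q_shift {c : K} {F : ℕ → ℕ → ℕ → K} (h : Shift c F) (a b j : ℕ) :
    q c F a (b + 1) j = q c F (a + 1) b j + c * q c F a b j := by
  induction j generalizing b with
  | zero => simp [q]
  | succ j ih =>
    simp only [q]
    rw [ih (b + 1), T_shift h a b 1 j]
    ring

lemma s2_last (G : ℕ → ℕ → ℕ → K) (a b i : ℕ) :
    s2 G a b (i + 1) = s2 (fun a b i => G a b (i + 1)) a b i + G (a + i) b 1 := by
  induction i generalizing a with
  | zero => simp [s2]
  | succ i ih =>
    rw [s2, ih (a + 1)]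
    simp only [s2]
    rw [show a + 1 + i = a + (i + 1) by ring]
    ring

lemma s2_lin (G H : ℕ → ℕ → ℕ → K) (c : K) (a b i : ℕ) :
    s2 (fun a b i => G a b i + c * H a b i) a b i = s2 G a b i + c * s2 H a b i := by
  induction i generalizing a with
  | zero => simp [s2]
  | succ i ih => simp only [s2]; rw [ih]; ring

/-- The closed form of the last two terms of `step2` on `A^a B^b S^i (S + c)^j`. -/
lemma T_tail {c : K} {F : ℕ → ℕ → ℕ → K} (h : Shift c F) (a b i j : ℕ) :
    T c (fun a b l => F a b (l + 1) + s2 F a (b + 1) l) a b i j =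
      T c F a b (i + 1) j + s2 (fun a b i => T c F a b i j) a (b + 1) i +
        q c F (a + i) (b + 1) j := by
  induction j generalizing i with
  | zero => simp [T, q]
  | succ j ih =>
    have e1 : T c (fun a b l => F a b (l + 1) + s2 F a (b + 1) l) a b i (j + 1) =
        T c (fun a b l => F a b (l + 1) + s2 F a (b + 1) l) a b (i + 1) j +
        c * T c (fun a b l => F a b (l + 1) + s2 F a (b + 1) l) a b i j := rfl
    have e2 : s2 (fun a b i => T c F a b i (j + 1)) a (b + 1) i =
        s2 (fun a b i => T c F a b (i + 1) j) a (b + 1) i +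
        c * s2 (fun a b i => T c F a b i j) a (b + 1) i :=
      s2_lin (fun a b i => T c F a b (i + 1) j) (fun a b i => T c F a b i j) c a (b + 1) i
    have e3 : T c F a b (i + 1) (j + 1) = T c F a b (i + 1 + 1) j + c * T c F a b (i + 1) j := rfl
    have e4 : q c F (a + i) (b + 1) (j + 1) = T c F (a + i) (b + 1) 1 j +
        q c F (a + i) (b + 1 + 1) j := rfl
    have e5 := s2_last (fun a b i => T c F a b i j) a (b + 1) i
    rw [e1, ih, ih, e2, e3, e4, e5, q_shift h (a + i) (b + 1) j,
      show a + (i + 1) = a + i + 1 by ring]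
    ring

lemma T_lin (c : K) (F G : ℕ → ℕ → ℕ → K) (a b i j : ℕ) :
    T c (fun (a' b' l : ℕ) => (a' : K) * F a' b' l + (b' : K) * F (a' + 1) (b' - 1) l + G a' b' l) a b i j
      = (a : K) * T c F a b i j + (b : K) * T c F (a + 1) (b - 1) i j + T c G a b i j := by
  induction j generalizing i with
  | zero => simp [T]
  | succ j ih => simp only [T]; rw [ih, ih]; ring

lemma T_step2 {c : K} {F : ℕ → ℕ → ℕ → K} (h : Shift c F) (a b l : ℕ) :
    T c (step2 F) a b 1 l = (a : K) * T c F a b 1 l + (b : K) * T c F (a + 1) (b - 1) 1 l +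
      T c F a b 1 (l + 1) + q c F (a + 1) b (l + 1) := by
  have e : step2 F = (fun (a' b' l : ℕ) => (a' : K) * F a' b' l + (b' : K) * F (a' + 1) (b' - 1) l +
      (fun a b l => F a b (l + 1) + s2 F a (b + 1) l) a' b' l) := by
    funext a b l
    simp only [step2]
    ring
  rw [e, T_lin c F, T_tail h]
  have e4 : q c F (a + 1) b (l + 1) = T c F (a + 1) b 1 l +
        q c F (a + 1) (b + 1) l := rfl
  have e3 : T c F a b 1 (l + 1) = T c F a b (1 + 1) l + c * T c F a b 1 l := rfl
  have e6 : s2 (fun a b i => T c F a b i l) a (b + 1) 1 = T c F a (b + 1) 1 l := by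
    simp [s2]
  rw [e3, e4, e6, T_shift h]
  ring

lemma s1_eq_q {c : K} {F G : ℕ → ℕ → ℕ → K} (h : ∀ a b l, F a b (l + 1) = T c G a b 1 l)
    (a b l : ℕ) : s1 F a b l = q c G a b l := by
  induction l generalizing b with
  | zero => simp [s1, q]
  | succ l ih => simp only [s1, q]; rw [h, ih]

lemma T_zero (x : K) (a b i j : ℕ) : T (1 - x) (V2 x 0) a b i j = x ^ (a + i) := by
  induction j generalizing i with
  | zero => rfl
  | succ j ih => simp only [T]; rw [ih, ih, ← add_assoc, pow_succ]; ring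

/-- The intertwining lemma. -/
theorem V1_eq (x : K) (R a b l : ℕ) : V1 x R a b (l + 1) = T (1 - x) (V2 x R) a b 1 l := by
  induction R generalizing a b l with
  | zero => rw [T_zero]; rfl
  | succ R ih =>
    have h1 : V1 x (R + 1) a b (l + 1) = step1 (V1 x R) a b (l + 1) := rfl
    have h2 : V2 x (R + 1) = step2 (V2 x R) := rfl
    rw [h1, h2, T_step2 (V2_shift x R), step1, ih, ih, ih, s1_eq_q ih]

theorem V1_one (x : K) (R a b : ℕ) : V1 x R a b 1 = V2 x R a b 1 := V1_eq x R a b 0

end Pool.Agent.Lib.MP_668c10_co
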