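import Pool.Agent.Lib.MP_668c10_co.Tree

/-!
Summing over the generating trees for Q1 of MP_668c10_co.
-/

namespace Pool.Agent.Lib.MP_668c10_co

open List

lemma av1_of_aux {M x : ℕ} {t c : List ℕ} (hM : ∀ v ∈ x :: t, v < M)
    (hc : c ∈ permutations'Aux M t) (h : av1 (x :: c)) : av1 (x :: t) := by
  induction t generalizing x c with
  | nil => trivial
  | cons y t ih =>
    have hx : x < M := hM x (by simp)
    have hyt : ∀ v ∈ y :: t, v < M := fun v hv => hM v (mem_cons_of_mem _ hv)
    have hg := good_aux hx.le hyt hc
    simp only [permutations'Aux, mem_cons, mem_map] at hc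
    rcases hc with rfl | ⟨c', hc', rfl⟩
    · exact ⟨fun _ => hg.1 (h.1 hx), h.2.2⟩
    · exact ⟨fun hxy => hg.1 (h.1 hxy), ih hyt hc' h.2⟩

lemma av2_of_aux {M x : ℕ} {t c : List ℕ} (hM : ∀ v ∈ x :: t, v < M)
    (hc : c ∈ permutations'Aux M t) (h : av2 (x :: c)) : av2 (x :: t) := by
  induction t generalizing x c with
  | nil => trivial
  | cons y t ih =>
    have hyt : ∀ v ∈ y :: t, v < M := fun v hv => hM v (mem_cons_of_mem _ hv)
    have hy : y < M := hyt y (by simp)
    simp only [permutations'Aux, mem_cons, mem_map] at hc
    rcases hc with rfl | ⟨c', hc', rfl⟩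
    · exact ⟨fun _ => h.2.1 (by omega), h.2.2⟩
    · exact ⟨fun hxy => (good_aux hy.le (fun v hv => hyt v (mem_cons_of_mem _ hv)) hc').1
        (h.1 hxy), ih hyt hc' h.2⟩

lemma av1_front {M x : ℕ} {t : List ℕ} (hx : x < M) : av1 (M :: x :: t) ↔ av1 (x :: t) :=
  ⟨fun h => h.2, fun h => ⟨fun h' => by omega, h⟩⟩

lemma av2_front {M x : ℕ} {t : List ℕ} (hx : x < M) :
    av2 (M :: x :: t) ↔ good x t ∧ av2 (x :: t) :=
  ⟨fun h => ⟨h.1 (by omega), h.2⟩, fun h => ⟨fun _ => h.1, h.2⟩⟩

variable {K : Type*} [CommRing K]

open Classical in
/-- The value of a list, type 1. -/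
noncomputable def G1 (z : K) (R : ℕ) (l : List ℕ) : K :=
  if av1 l then V1 z R (a1 l + if dec l then 0 else 1) (b1 l) (sl l) else 0

/-- The head is good. -/
def goodHead : List ℕ → Prop
  | [] => True
  | (x :: t) => good x t

open Classical in
/-- The value of a list, type 2. -/
noncomputable def G2 (z : K) (R : ℕ) (l : List ℕ) : K :=
  if av2 l then V2 z R (a2 l) (b2 l + if ¬ dec l ∧ goodHead l then 1 else 0) (sl l) else 0

open Classical in
theorem G1_step (z : K) (R M x : ℕ) (t : List ℕ) (hM : ∀ v ∈ x :: t, v < M) :
    ((permutations'Aux M (x :: t)).map (G1 z R)).sum = G1 z (R + 1) (x :: t) := by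
  have hx : x < M := hM x (by simp)
  rw [permutations'Aux, map_cons, sum_cons, map_map]
  by_cases hav : av1 (x :: t)
  · have h1 : ((permutations'Aux M t).map (G1 z R ∘ cons x)) =
      ((permutations'Aux M t).map (fun c => if av1 (x :: c) then
        (fun a b l => V1 z R (a + 1) b l) (a1 (x :: c)) (b1 (x :: c)) (sl (x :: c)) else 0)) := by
      apply map_congr_left
      intro c hc
      simp only [Function.comp_apply, G1]
      rw [if_neg (not_dec_aux hx hc)]
    rw [h1]
    have h2 := D1 (K := K) M t x hM hav (fun a b l => V1 z R (a + 1) b l)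
    rw [h2]
    have hA : ∀ (L a b : ℕ), s1 (fun a b l => V1 z R (a + 1) b l) a b L =
        s1 (V1 z R) (a + 1) b L := by
      intro L
      induction L with
      | zero => intro a b; rfl
      | succ L ih => intro a b; simp only [s1, ih]
    have hdM : dec (M :: x :: t) ↔ dec (x :: t) := dec_front hM
    rw [G1, G1, if_pos ((av1_front hx).2 hav), if_pos hav, V1]
    by_cases hd : dec (x :: t)
    · have e1 : a1 (M :: x :: t) = 0 := by rw [a1, if_pos hd]
      have e2 : b1 (M :: x :: t) = 0 := by rw [b1, if_pos hd]
      have e3 : sl (M :: x :: t) = (x :: t).length + 1 := by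
        rw [sl, if_pos (hdM.2 hd)]; simp
      have e4 : a1 (x :: t) = 0 := by
        cases t with
        | nil => rfl
        | cons y t => rw [a1, if_pos (pairwise_cons.1 hd).2]
      have e5 : b1 (x :: t) = 0 := by
        cases t with
        | nil => rfl
        | cons y t => rw [b1, if_pos (pairwise_cons.1 hd).2]
      have e6 : sl (x :: t) = (x :: t).length := by rw [sl, if_pos hd]
      rw [e1, e2, e3, e4, e5, e6, if_pos (hdM.2 hd), if_pos hd, if_pos hd, hA]
      simp only [step1]
      push_cast
      ring
    · have hMx : ¬ M < x := by omega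
      have hgM : ¬ good M (x :: t) := fun h => hd ((good_top_iff hM).1 h)
      have e1 : a1 (M :: x :: t) = a1 (x :: t) := by
        rw [a1, if_neg hd]; simp only [hgM, hMx]; simp
      have e2 : b1 (M :: x :: t) = b1 (x :: t) := by
        rw [b1, if_neg hd]; simp only [hgM, hMx]; simp
      have e3 : sl (M :: x :: t) = sl (x :: t) := by
        rw [sl, if_neg (fun h => hd (hdM.1 h))]
      rw [e1, e2, e3, if_neg (fun h => hd (hdM.1 h)), if_neg hd, if_neg hd]
      simp only [step1, hA]
      push_cast
      ring
  · rw [G1, G1, if_neg (fun h => hav ((av1_front hx).1 h)), if_neg hav, zero_add]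
    have : (permutations'Aux M t).map (G1 z R ∘ cons x) = (permutations'Aux M t).map (fun _ => 0) := by
      apply map_congr_left
      intro c hc
      simp only [Function.comp_apply, G1]
      rw [if_neg (fun h => hav (av1_of_aux hM hc h))]
    rw [this]
    simp

open Classical in
theorem G2_step (z : K) (R M x : ℕ) (t : List ℕ) (hM : ∀ v ∈ x :: t, v < M) :
    ((permutations'Aux M (x :: t)).map (G2 z R)).sum = G2 z (R + 1) (x :: t) := by
  have hx : x < M := hM x (by simp)
  have ht : ∀ v ∈ t, v < M := fun v hv => hM v (mem_cons_of_mem _ hv)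
  rw [permutations'Aux, map_cons, sum_cons, map_map]
  by_cases hav : av2 (x :: t)
  · have h1 : ((permutations'Aux M t).map (G2 z R ∘ cons x)) =
      ((permutations'Aux M t).map (fun c => if av2 (x :: c) then
        (fun a b l => V2 z R a (b + if good x t then 1 else 0) l)
          (a2 (x :: c)) (b2 (x :: c)) (sl (x :: c)) else 0)) := by
      apply map_congr_left
      intro c hc
      have hg := good_aux hx.le ht hc
      have hd := not_dec_aux hx hc
      simp only [Function.comp_apply, G2, goodHead, hg, hd, not_false_iff, true_and]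
    rw [h1]
    have h2 := D2 (K := K) M t x hM hav (fun a b l => V2 z R a (b + if good x t then 1 else 0) l)
    rw [h2]
    have hA : ∀ (e L a b : ℕ), s2 (fun a b l => V2 z R a (b + e) l) a b L =
        s2 (V2 z R) a (b + e) L := by
      intro e L
      induction L with
      | zero => intro a b; rfl
      | succ L ih => intro a b; simp only [s2, ih]
    have hdM : dec (M :: x :: t) ↔ dec (x :: t) := dec_front hM
    rw [G2, G2]
    simp only [av2_front hx, hav, and_true, if_true]
    rw [V2]
    by_cases hd : dec (x :: t)
    · have hg : good x t := good_of_dec (pairwise_cons.1 hd).2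
      have e1 : a2 (M :: x :: t) = 0 := by rw [a2, if_pos hd]
      have e2 : b2 (M :: x :: t) = 0 := by rw [b2, if_pos hd]
      have e3 : sl (M :: x :: t) = (x :: t).length + 1 := by
        rw [sl, if_pos (hdM.2 hd)]; simp
      have e4 : a2 (x :: t) = 0 := by
        cases t with
        | nil => rfl
        | cons y t => rw [a2, if_pos (pairwise_cons.1 hd).2]
      have e5 : b2 (x :: t) = 0 := by
        cases t with
        | nil => rfl
        | cons y t => rw [b2, if_pos (pairwise_cons.1 hd).2]
      have e6 : sl (x :: t) = (x :: t).length := by rw [sl, if_pos hd]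
      rw [e1, e2, e3, e4, e5, e6]
      simp only [hdM.2 hd, hd, hg, if_true, not_true, false_and, if_false, add_zero, step2, hA]
      push_cast
      ring
    · have hMx : ¬ M < x := by omega
      have hgM : ¬ good M (x :: t) := fun h => hd ((good_top_iff hM).1 h)
      have e1 : a2 (M :: x :: t) = a2 (x :: t) + if good x t then 1 else 0 := by
        rw [a2, if_neg hd]; simp only [hMx]; simp
      have e2 : b2 (M :: x :: t) = b2 (x :: t) := by
        rw [b2, if_neg hd]; simp only [hMx]; simp
      have e3 : sl (M :: x :: t) = sl (x :: t) := by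
        rw [sl, if_neg (fun h => hd (hdM.1 h))]
      have hdM' : ¬ dec (M :: x :: t) := fun h => hd (hdM.1 h)
      rw [e1, e2, e3]
      by_cases hg : good x t
      · simp only [goodHead, hd, hdM', hg, hgM, if_true, not_false_iff, and_true, and_false,
          if_false, add_zero, step2, hA]
        rcases b2 (x :: t) with _ | b
        · simp only [Nat.add_sub_cancel]
          push_cast
          ring
        · simp only [Nat.add_sub_cancel]
          push_cast
          ring
      · simp only [goodHead, hd, hdM', hg, hgM, if_true, not_false_iff, and_true, and_false,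
          if_false, add_zero, step2]
        simp
  · rw [G2, G2, if_neg (fun h => hav ((av2_front hx).1 h).2), if_neg hav, zero_add]
    have : (permutations'Aux M t).map (G2 z R ∘ cons x) = (permutations'Aux M t).map (fun _ => 0) := by
      apply map_congr_left
      intro c hc
      simp only [Function.comp_apply, G2]
      rw [if_neg (fun h => hav (av2_of_aux hM hc h))]
    rw [this]
    simp

/-- `[n - 1, ..., 1, 0]`. -/
def Ld : ℕ → List ℕ
  | 0 => []
  | (n + 1) => n :: Ld n

lemma mem_Ld {n v : ℕ} : v ∈ Ld n ↔ v < n := by
  induction n with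
  | zero => simp [Ld]
  | succ n ih => simp only [Ld, mem_cons, ih]; omega

lemma length_Ld (n : ℕ) : (Ld n).length = n := by
  induction n with
  | zero => rfl
  | succ n ih => simp [Ld, ih]

lemma nodup_Ld (n : ℕ) : (Ld n).Nodup := by
  induction n with
  | zero => simp [Ld]
  | succ n ih => simp only [Ld, nodup_cons, mem_Ld, ih]; simp

lemma sum_succ (g : List ℕ → K) (n : ℕ) :
    ((permutations' (Ld (n + 1))).map g).sum =
      ((permutations' (Ld n)).map (fun l => ((permutations'Aux n l).map g).sum)).sum := by
  rw [Ld, permutations']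
  generalize permutations' (Ld n) = P
  induction P with
  | nil => simp
  | cons l P ih => simp [flatMap_cons, ih]

theorem S1 (z : K) (n R : ℕ) :
    ((permutations' (Ld (n + 1))).map (G1 z R)).sum = V1 z (n + R) 0 0 1 := by
  induction n generalizing R with
  | zero => simp [Ld, permutations', permutations'Aux, G1, av1, a1, b1, sl]
  | succ n ih =>
    rw [sum_succ, show n + 1 + R = n + (R + 1) by ring, ← ih (R + 1)]
    congr 1
    apply map_congr_left
    intro l hl
    have hl' := mem_permutations'.1 hl
    have hlen : l.length = n + 1 := by rw [hl'.length_eq, length_Ld]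
    have hM : ∀ v ∈ l, v < n + 1 := fun v hv => mem_Ld.1 (hl'.mem_iff.1 hv)
    cases l with
    | nil => simp at hlen
    | cons x t => exact G1_step z R (n + 1) x t hM

theorem S2 (z : K) (n R : ℕ) :
    ((permutations' (Ld (n + 1))).map (G2 z R)).sum = V2 z (n + R) 0 0 1 := by
  induction n generalizing R with
  | zero => simp [Ld, permutations', permutations'Aux, G2, av2, a2, b2, sl]
  | succ n ih =>
    rw [sum_succ, show n + 1 + R = n + (R + 1) by ring, ← ih (R + 1)]
    congr 1
    apply map_congr_left
    intro l hl
    have hl' := mem_permutations'.1 hl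
    have hlen : l.length = n + 1 := by rw [hl'.length_eq, length_Ld]
    have hM : ∀ v ∈ l, v < n + 1 := fun v hv => mem_Ld.1 (hl'.mem_iff.1 hv)
    cases l with
    | nil => simp at hlen
    | cons x t => exact G2_step z R (n + 1) x t hM

lemma asc_eq {x : ℕ} {t : List ℕ} (h : av1 (x :: t)) :
    a1 (x :: t) + (if dec (x :: t) then 0 else 1) = ascL (x :: t) := by
  induction t generalizing x with
  | nil => simp [a1, ascL]
  | cons y t ih =>
    have ih := ih h.2
    rw [a1, ascL, ← ih]
    by_cases hd : dec (y :: t)
    · have e4 : a1 (y :: t) = 0 := by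
        cases t with
        | nil => rfl
        | cons w t => rw [a1, if_pos (pairwise_cons.1 hd).2]
      rw [if_pos hd, if_pos hd, e4]
      by_cases hdx : dec (x :: y :: t)
      · rw [if_pos hdx, if_neg (not_lt_of_dec hdx)]
      · rw [if_neg hdx, if_pos (lt_of_dec_not_dec hd hdx)]
    · have hdx : ¬ dec (x :: y :: t) := fun h => hd (pairwise_cons.1 h).2
      rw [if_neg hd, if_neg hd, if_neg hdx]
      by_cases hxy : x < y
      · simp only [hxy, h.1 hxy, and_true, if_true]
      · simp only [hxy, false_and, if_false]

lemma des_eq {x : ℕ} {t : List ℕ} (h : av2 (x :: t)) :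
    a2 (x :: t) + sl (x :: t) = desL (x :: t) + 1 := by
  induction t generalizing x with
  | nil => simp [a2, desL, sl]
  | cons y t ih =>
    have ih := ih h.2
    rw [a2, desL, sl]
    by_cases hd : dec (y :: t)
    · have e4 : a2 (y :: t) = 0 := by
        cases t with
        | nil => rfl
        | cons w t => rw [a2, if_pos (pairwise_cons.1 hd).2]
      rw [if_pos hd]
      have e5 : sl (y :: t) = (y :: t).length := by rw [sl, if_pos hd]
      rw [e4, e5] at ih
      by_cases hdx : dec (x :: y :: t)
      · rw [if_pos hdx, if_neg (not_lt_of_dec hdx)]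
        simp only [length_cons] at *
        omega
      · rw [if_neg hdx, if_pos (lt_of_dec_not_dec hd hdx), e5]
        simp only [length_cons] at *
        omega
    · have hdx : ¬ dec (x :: y :: t) := fun h => hd (pairwise_cons.1 h).2
      rw [if_neg hd, if_neg hdx]
      by_cases hxy : x < y
      · simp only [hxy, not_true, false_and, if_true, if_false]
        omega
      · simp only [hxy, not_false_iff, h.1 hxy, and_true, if_true, if_false]
        omega

open Classical in
/-- The two generating functions over lists agree. -/
theorem main_lists (z : K) (n : ℕ) :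
    ((permutations' (Ld (n + 1))).map (fun l => if av1 l then z ^ (ascL l + 1) else 0)).sum =
    ((permutations' (Ld (n + 1))).map (fun l => if av2 l then z ^ (desL l + 1) else 0)).sum := by
  have h1 : (permutations' (Ld (n + 1))).map (fun l => if av1 l then z ^ (ascL l + 1) else 0) =
      (permutations' (Ld (n + 1))).map (G1 z 0) := by
    apply map_congr_left
    intro l hl
    have hlen : l.length = n + 1 := by rw [(mem_permutations'.1 hl).length_eq, length_Ld]
    cases l with
    | nil => simp at hlen
    | cons x t =>
      rw [G1]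
      by_cases h : av1 (x :: t)
      · rw [if_pos h, if_pos h, V1, ← asc_eq h]
      · rw [if_neg h, if_neg h]
  have h2 : (permutations' (Ld (n + 1))).map (fun l => if av2 l then z ^ (desL l + 1) else 0) =
      (permutations' (Ld (n + 1))).map (G2 z 0) := by
    apply map_congr_left
    intro l hl
    have hlen : l.length = n + 1 := by rw [(mem_permutations'.1 hl).length_eq, length_Ld]
    cases l with
    | nil => simp at hlen
    | cons x t =>
      rw [G2]
      by_cases h : av2 (x :: t)
      · rw [if_pos h, if_pos h, V2, ← des_eq h]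
      · rw [if_neg h, if_neg h]
  rw [h1, h2, S1, S2, V1_one]

end Pool.Agent.Lib.MP_668c10_co
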