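import Pool.Agent.Lib.MP_668c10_co.Defs
import Pool.Agent.Lib.MP_668c10_co.Sum

/-!
From permutations to lists for MP_668c10_co.
-/

namespace Pool.Agent.Lib.MP_668c10_co

open List

/-- The word of a permutation. -/
def toL {n : ℕ} (σ : Equiv.Perm (Fin n)) : List ℕ := List.ofFn (fun i => (σ i : ℕ))

lemma length_toL {n : ℕ} (σ : Equiv.Perm (Fin n)) : (toL σ).length = n := by simp [toL]

lemma toL_getElem {n : ℕ} (σ : Equiv.Perm (Fin n)) (i : ℕ) (h : i < (toL σ).length) :
    (toL σ)[i] = (σ ⟨i, by simpa [toL] using h⟩ : ℕ) := by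
  simp [toL]

lemma toL_injective {n : ℕ} : Function.Injective (toL (n := n)) := by
  intro σ τ h
  have h2 := List.ofFn_injective h
  ext i
  exact congrFun h2 i

lemma toL_nodup {n : ℕ} (σ : Equiv.Perm (Fin n)) : (toL σ).Nodup := by
  rw [toL, List.nodup_ofFn]
  exact Fin.val_injective.comp σ.injective

lemma toL_perm {n : ℕ} (σ : Equiv.Perm (Fin n)) : toL σ ~ Ld n := by
  rw [List.perm_ext_iff_of_nodup (toL_nodup σ) (nodup_Ld n)]
  intro v
  rw [mem_Ld, toL, List.mem_ofFn]
  constructor
  · rintro ⟨i, rfl⟩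
    exact (σ i).isLt
  · intro hv
    exact ⟨σ.symm ⟨v, hv⟩, by simp⟩

lemma exists_toL {n : ℕ} {l : List ℕ} (h : l ~ Ld n) : ∃ σ : Equiv.Perm (Fin n), toL σ = l := by
  have hlen : l.length = n := by rw [h.length_eq, length_Ld]
  have hnd : l.Nodup := (h.nodup_iff).2 (nodup_Ld n)
  have hlt : ∀ i : Fin n, l[(i : ℕ)]'(by rw [hlen]; exact i.isLt) < n := by
    intro i
    apply mem_Ld.1
    exact h.mem_iff.1 (List.getElem_mem _)
  let f : Fin n → Fin n := fun i => ⟨l[(i : ℕ)]'(by rw [hlen]; exact i.isLt), hlt i⟩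
  have hf : Function.Injective f := by
    intro i j hij
    have := congrArg Fin.val hij
    simp only [f] at this
    exact Fin.ext ((List.Nodup.getElem_inj_iff hnd).1 this)
  refine ⟨Equiv.ofBijective f (Finite.injective_iff_bijective.1 hf), ?_⟩
  apply List.ext_getElem
  · rw [length_toL, hlen]
  · intro i h1 h2
    rw [toL_getElem]
    rfl

lemma sum_perm {K : Type*} [AddCommMonoid K] (n : ℕ) (g : List ℕ → K) :
    ∑ σ : Equiv.Perm (Fin n), g (toL σ) = ((permutations' (Ld n)).map g).sum := by
  classical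
  have hnd : (permutations' (Ld n)).Nodup :=
    (permutations_perm_permutations' (Ld n)).nodup_iff.1 (nodup_permutations _ (nodup_Ld n))
  rw [← List.sum_toFinset g hnd]
  have : (permutations' (Ld n)).toFinset = Finset.univ.image (toL (n := n)) := by
    ext l
    simp only [List.mem_toFinset, mem_permutations', Finset.mem_image, Finset.mem_univ, true_and]
    exact ⟨fun h => exists_toL h, by rintro ⟨σ, rfl⟩; exact toL_perm σ⟩
  rw [this, Finset.sum_image (fun σ _ τ _ h => toL_injective h)]

lemma av1_iff (l : List ℕ) : av1 l ↔ ∀ (i j k : ℕ) (hk : k < l.length) (hj : j < k)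
    (hi : i + 1 < j), ¬ (l[j] < l[k] ∧ l[k] < l[i] ∧ l[i] < l[i + 1]) := by
  induction l with
  | nil => simp [av1]
  | cons x l ih =>
    cases l with
    | nil => simp [av1]
    | cons y t =>
      rw [av1, ih]
      constructor
      · rintro ⟨h1, h2⟩ i j k hk hj hi ⟨g1, g2, g3⟩
        obtain ⟨k, rfl⟩ : ∃ k', k = k' + 1 := ⟨k - 1, by omega⟩
        obtain ⟨j, rfl⟩ : ∃ j', j = j' + 1 := ⟨j - 1, by omega⟩
        rcases i with _ | i
        · simp only [List.getElem_cons_succ, List.getElem_cons_zero] at g1 g2 g3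
          have := List.pairwise_iff_getElem.1 (h1 g3) j k (by simp at hk ⊢; omega)
            (by simp at hk ⊢; omega) (by omega)
          exact this ⟨g1, g2⟩
        · simp only [List.getElem_cons_succ] at g1 g2 g3
          exact h2 i j k (by simp at hk ⊢; omega) (by omega) (by omega) ⟨g1, g2, g3⟩
      · intro h
        refine ⟨fun hxy => ?_, ?_⟩
        · rw [good, List.pairwise_iff_getElem]
          intro p q hp hq hpq ⟨g1, g2⟩
          rcases p with _ | p
          · simp only [List.getElem_cons_zero] at g1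
            omega
          · exact h 0 (p + 2) (q + 1) (by simp at hq ⊢; omega) (by omega) (by omega)
              ⟨g1, g2, hxy⟩
        · intro i j k hk hj hi ⟨g1, g2, g3⟩
          exact h (i + 1) (j + 1) (k + 1) (by simp at hk ⊢; omega) (by omega) (by omega)
            ⟨g1, g2, g3⟩

lemma av2_iff (l : List ℕ) : av2 l ↔ ∀ (i j k : ℕ) (hk : k < l.length) (hj : j < k)
    (hi : i + 1 < j), ¬ (l[j] < l[k] ∧ l[k] < l[i + 1] ∧ ¬ l[i] < l[i + 1]) := by
  induction l with
  | nil => simp [av2]
  | cons x l ih =>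
    cases l with
    | nil => simp [av2]
    | cons y t =>
      rw [av2, ih]
      constructor
      · rintro ⟨h1, h2⟩ i j k hk hj hi ⟨g1, g2, g3⟩
        obtain ⟨k, rfl⟩ : ∃ k', k = k' + 1 := ⟨k - 1, by omega⟩
        obtain ⟨j, rfl⟩ : ∃ j', j = j' + 1 := ⟨j - 1, by omega⟩
        rcases i with _ | i
        · obtain ⟨k, rfl⟩ : ∃ k', k = k' + 1 := ⟨k - 1, by omega⟩
          obtain ⟨j, rfl⟩ : ∃ j', j = j' + 1 := ⟨j - 1, by omega⟩
          simp only [List.getElem_cons_succ, List.getElem_cons_zero] at g1 g2 g3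
          have := List.pairwise_iff_getElem.1 (h1 g3) j k (by simp at hk ⊢; omega)
            (by simp at hk ⊢; omega) (by omega)
          exact this ⟨g1, g2⟩
        · simp only [List.getElem_cons_succ] at g1 g2 g3
          exact h2 i j k (by simp at hk ⊢; omega) (by omega) (by omega) ⟨g1, g2, g3⟩
      · intro h
        refine ⟨fun hxy => ?_, ?_⟩
        · rw [good, List.pairwise_iff_getElem]
          intro p q hp hq hpq ⟨g1, g2⟩
          exact h 0 (p + 2) (q + 2) (by simp at hq ⊢; omega) (by omega) (by omega)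
              ⟨g1, g2, hxy⟩
        · intro i j k hk hj hi ⟨g1, g2, g3⟩
          exact h (i + 1) (j + 1) (k + 1) (by simp at hk ⊢; omega) (by omega) (by omega)
            ⟨g1, g2, g3⟩

lemma ascL_ofFn (n : ℕ) (f : Fin n → ℕ) : ascL (List.ofFn f) =
    (Finset.univ.filter (fun i : Fin n => ∃ h : (i : ℕ) + 1 < n, f i < f ⟨(i : ℕ) + 1, h⟩)).card := by
  induction n with
  | zero => simp [ascL]
  | succ n ih =>
    rcases n with _ | n
    · rw [Finset.filter_false_of_mem]
      · simp [ascL]
      · rintro i - ⟨h, -⟩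
        omega
    · have h1 : List.ofFn f = f 0 :: f 1 :: List.ofFn (fun i : Fin n => f i.succ.succ) := by
        simp [List.ofFn_succ]
      have h2 : List.ofFn (fun i : Fin (n + 1) => f i.succ) =
          f 1 :: List.ofFn (fun i : Fin n => f i.succ.succ) := by
        simp [List.ofFn_succ]
      have h3 := Fin.card_filter_univ_succ' (n := n + 1)
        (fun i : Fin (n + 1 + 1) => ∃ h : (i : ℕ) + 1 < n + 1 + 1, f i < f ⟨(i : ℕ) + 1, h⟩)
      rw [h1, ascL, ← h2, ih, h3, add_comm]
      congr 1
      · by_cases h : f 0 < f 1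
        · rw [if_pos h, if_pos]
          exact ⟨by simp, h⟩
        · rw [if_neg h, if_neg]
          rintro ⟨_, h'⟩
          exact h h'
      · congr 1
        ext i
        simp only [Finset.mem_filter, Finset.mem_univ, true_and]
        constructor
        · rintro ⟨h, h'⟩; exact ⟨by simpa using h, h'⟩
        · rintro ⟨h, h'⟩; exact ⟨by simpa using h, h'⟩

lemma desL_ofFn (n : ℕ) (f : Fin n → ℕ) : desL (List.ofFn f) =
    (Finset.univ.filter (fun i : Fin n => ∃ h : (i : ℕ) + 1 < n,
      ¬ f i < f ⟨(i : ℕ) + 1, h⟩)).card := by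
  induction n with
  | zero => simp [desL]
  | succ n ih =>
    rcases n with _ | n
    · rw [Finset.filter_false_of_mem]
      · simp [desL]
      · rintro i - ⟨h, -⟩
        omega
    · have h1 : List.ofFn f = f 0 :: f 1 :: List.ofFn (fun i : Fin n => f i.succ.succ) := by
        simp [List.ofFn_succ]
      have h2 : List.ofFn (fun i : Fin (n + 1) => f i.succ) =
          f 1 :: List.ofFn (fun i : Fin n => f i.succ.succ) := by
        simp [List.ofFn_succ]
      have h3 := Fin.card_filter_univ_succ' (n := n + 1)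
        (fun i : Fin (n + 1 + 1) => ∃ h : (i : ℕ) + 1 < n + 1 + 1, ¬ f i < f ⟨(i : ℕ) + 1, h⟩)
      rw [h1, desL, ← h2, ih, h3, add_comm]
      congr 1
      · by_cases h : f 0 < f 1
        · rw [if_pos h, if_neg]
          rintro ⟨_, h'⟩
          exact h' h
        · rw [if_neg h, if_pos]
          exact ⟨by simp, h⟩
      · congr 1
        ext i
        simp only [Finset.mem_filter, Finset.mem_univ, true_and]
        constructor
        · rintro ⟨h, h'⟩; exact ⟨by simpa using h, h'⟩
        · rintro ⟨h, h'⟩; exact ⟨by simpa using h, h'⟩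

lemma asc_add_des (x : ℕ) (t : List ℕ) : ascL (x :: t) + desL (x :: t) = t.length := by
  induction t generalizing x with
  | nil => rfl
  | cons y t ih =>
    rw [ascL, desL, length_cons, ← ih y]
    split_ifs <;> omega

end Pool.Agent.Lib.MP_668c10_co
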