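import Mathlib

/-!
Descent-Wilf equivalence of shaded patterns: definitions for problem MP_668c10_co.
-/

namespace Pool.Agent.Lib.MP_668c10_co

open Polynomial

/-- The number of descents of a permutation of `Fin n` : the number of positions `i` such that
`i + 1` is also a position and `σ (i + 1) < σ i`. -/
def des {n : ℕ} (σ : Equiv.Perm (Fin n)) : ℕ :=
  (Finset.univ.filter (fun i : Fin n => ∃ h : (i : ℕ) + 1 < n, σ ⟨(i : ℕ) + 1, h⟩ < σ i)).card

/-- `σ` contains the mesh pattern `p̂`, where `p = p₁p₂p₃p₄` is written as a word `Fin 4 → ℕ`: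
there are positions `e 0 < e 1 < e 2 < e 3` with `e 1 = e 0 + 1` at which the values of `σ` are
order-isomorphic to `p₁p₂p₃p₄`. -/
def Contains {n : ℕ} (p : Fin 4 → ℕ) (σ : Equiv.Perm (Fin n)) : Prop :=
  ∃ e : Fin 4 → Fin n, StrictMono e ∧ (e 1 : ℕ) = (e 0 : ℕ) + 1 ∧
    ∀ a b : Fin 4, σ (e a) < σ (e b) ↔ p a < p b

open Classical in
/-- `Av n P` is the set of permutations of `Fin n` that avoid every `p̂` with `p ∈ P`. -/
noncomputable def Av (n : ℕ) (P : Set (Fin 4 → ℕ)) : Finset (Equiv.Perm (Fin n)) :=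
  Finset.univ.filter (fun σ => ∀ p ∈ P, ¬ Contains p σ)

/-- The descent polynomial `F_n^des(P; q) = ∑_{σ ∈ Av_n(P)} q^(des σ)`. -/
noncomputable def desPoly (n : ℕ) (P : Set (Fin 4 → ℕ)) : ℤ[X] :=
  ∑ σ ∈ Av n P, (X : ℤ[X]) ^ des σ

/-- Two sets of patterns are des-Wilf equivalent. -/
def DesWilf (P Q : Set (Fin 4 → ℕ)) : Prop :=
  ∀ n : ℕ, 1 ≤ n → desPoly n P = desPoly n Q

end Pool.Agent.Lib.MP_668c10_co
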