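import Pool.Agent.Lib.MP_668c10_co.Bridge

/-!
Pattern containment and complementation for MP_668c10_co.
-/

namespace Pool.Agent.Lib.MP_668c10_co

open List

lemma contains_iff {n : ℕ} (p : Fin 4 → ℕ) (σ : Equiv.Perm (Fin n)) :
    Contains p σ ↔ ∃ (i j k : ℕ) (hk : k < n) (hj : j < k) (hi : i + 1 < j), ∀ a b : Fin 4,
      ((![σ ⟨i, by omega⟩, σ ⟨i + 1, by omega⟩, σ ⟨j, by omega⟩, σ ⟨k, hk⟩] a) <
      (![σ ⟨i, by omega⟩, σ ⟨i + 1, by omega⟩, σ ⟨j, by omega⟩, σ ⟨k, hk⟩] b) ↔ p a < p b) := by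
  constructor
  · rintro ⟨e, he, h1, h⟩
    have h01 : e 0 < e 1 := he (by decide)
    have h12 : e 1 < e 2 := he (by decide)
    have h23 : e 2 < e 3 := he (by decide)
    refine ⟨e 0, e 2, e 3, (e 3).isLt, h23, by rw [← h1]; exact h12, ?_⟩
    have key : ∀ a : Fin 4, (![σ ⟨e 0, by omega⟩, σ ⟨(e 0 : ℕ) + 1, by omega⟩,
        σ ⟨e 2, by omega⟩, σ ⟨e 3, by omega⟩] a) = σ (e a) := by
      intro a
      fin_cases a
      · rfl
      · show σ ⟨(e 0 : ℕ) + 1, _⟩ = σ (e 1)
        congr 1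
        exact Fin.ext h1.symm
      · rfl
      · rfl
    intro a b
    rw [key, key]
    exact h a b
  · rintro ⟨i, j, k, hk, hj, hi, h⟩
    refine ⟨![⟨i, by omega⟩, ⟨i + 1, by omega⟩, ⟨j, by omega⟩, ⟨k, hk⟩], ?_, rfl, ?_⟩
    · rw [Fin.strictMono_iff_lt_succ]
      intro a
      fin_cases a
      · show i < i + 1
        omega
      · exact hi
      · exact hj
    · intro a b
      have key : ∀ a : Fin 4, σ (![⟨i, by omega⟩, ⟨i + 1, by omega⟩, ⟨j, by omega⟩, ⟨k, hk⟩] a) =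
        (![σ ⟨i, by omega⟩, σ ⟨i + 1, by omega⟩, σ ⟨j, by omega⟩, σ ⟨k, hk⟩] a) := by
        intro a
        fin_cases a <;> rfl
      rw [key, key]
      exact h a b

lemma pat3412 {n : ℕ} (w : Fin 4 → Fin n) :
    (∀ a b : Fin 4, (w a < w b ↔ (![3, 4, 1, 2] : Fin 4 → ℕ) a < (![3, 4, 1, 2] : Fin 4 → ℕ) b)) ↔
      w 2 < w 3 ∧ w 3 < w 0 ∧ w 0 < w 1 := by
  constructor
  · intro h
    exact ⟨(h 2 3).2 (by simp), (h 3 0).2 (by simp), (h 0 1).2 (by simp)⟩
  · rintro ⟨h1, h2, h3⟩ a b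
    fin_cases a <;> fin_cases b <;> simp <;> omega

lemma pat1243 {n : ℕ} (w : Fin 4 → Fin n) :
    (∀ a b : Fin 4, (w a < w b ↔ (![1, 2, 4, 3] : Fin 4 → ℕ) a < (![1, 2, 4, 3] : Fin 4 → ℕ) b)) ↔
      w 0 < w 1 ∧ w 1 < w 3 ∧ w 3 < w 2 := by
  constructor
  · intro h
    exact ⟨(h 0 1).2 (by simp), (h 1 3).2 (by simp), (h 3 2).2 (by simp)⟩
  · rintro ⟨h1, h2, h3⟩ a b
    fin_cases a <;> fin_cases b <;> simp <;> omega

/-- Complement of a permutation. -/
def compl {n : ℕ} : Equiv.Perm (Fin n) ≃ Equiv.Perm (Fin n) where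
  toFun σ := σ.trans Fin.revPerm
  invFun σ := σ.trans Fin.revPerm
  left_inv σ := by ext i; simp
  right_inv σ := by ext i; simp

lemma compl_apply {n : ℕ} (σ : Equiv.Perm (Fin n)) (i : Fin n) : compl σ i = Fin.rev (σ i) := rfl

lemma des_eq_desL {n : ℕ} (σ : Equiv.Perm (Fin n)) : des σ = desL (toL σ) := by
  rw [toL, desL_ofFn, des]
  congr 1
  ext i
  simp only [Finset.mem_filter, Finset.mem_univ, true_and]
  constructor
  · rintro ⟨h, h'⟩
    refine ⟨h, ?_⟩
    simp only [Fin.val_fin_lt]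
    exact not_lt.2 h'.le
  · rintro ⟨h, h'⟩
    refine ⟨h, ?_⟩
    simp only [Fin.val_fin_lt] at h'
    refine lt_of_le_of_ne (not_lt.1 h') ?_
    intro heq
    have := congrArg Fin.val (σ.injective heq)
    simp at this

lemma des_compl {n : ℕ} (σ : Equiv.Perm (Fin n)) : des (compl σ) = ascL (toL σ) := by
  rw [toL, ascL_ofFn, des]
  congr 1
  ext i
  simp only [Finset.mem_filter, Finset.mem_univ, true_and, compl_apply, Fin.rev_lt_rev,
    Fin.val_fin_lt]

lemma contains3412 {n : ℕ} (σ : Equiv.Perm (Fin n)) :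
    ¬ Contains ![3, 4, 1, 2] σ ↔ av1 (toL σ) := by
  rw [contains_iff, av1_iff]
  simp only [pat3412]
  push Not
  constructor
  · intro h i j k hk hj hi
    have hk' : k < n := by simpa [length_toL] using hk
    have := h i j k hk' hj hi
    simp only [toL_getElem]
    intro g1 g2
    have := this g1 g2
    exact this
  · intro h i j k hk hj hi
    have hk' : k < (toL σ).length := by simpa [length_toL] using hk
    have := h i j k hk' hj hi
    simp only [toL_getElem] at this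
    intro g1 g2
    exact this g1 g2

lemma contains1243 {n : ℕ} (σ : Equiv.Perm (Fin n)) :
    ¬ Contains ![1, 2, 4, 3] (compl σ) ↔ av2 (toL σ) := by
  rw [contains_iff, av2_iff]
  simp only [pat1243]
  push Not
  constructor
  · intro h i j k hk hj hi
    have hk' : k < n := by simpa [length_toL] using hk
    have := h i j k hk' hj hi
    simp only [toL_getElem]
    intro g1 g2
    by_contra h3
    rw [not_lt] at h3
    have hne : (σ ⟨i + 1, by omega⟩ : ℕ) ≠ (σ ⟨i, by omega⟩ : ℕ) := by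
      intro heq
      have := congrArg Fin.val (σ.injective (Fin.ext heq))
      simp at this
    have h4 : σ ⟨i + 1, by omega⟩ < σ ⟨i, by omega⟩ := lt_of_le_of_ne h3 (fun h => hne (congrArg _ h))
    have h5 := this (by simpa [compl_apply, Fin.rev_lt_rev] using h4)
      (by simpa [compl_apply, Fin.rev_lt_rev] using g2)
    simp [compl_apply, Fin.rev_le_rev] at h5
    exact absurd g1 (not_lt.2 h5)
  · intro h i j k hk hj hi
    have hk' : k < (toL σ).length := by simpa [length_toL] using hk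
    have := h i j k hk' hj hi
    simp only [toL_getElem] at this
    intro g1 g2
    simp only [Matrix.cons_val_zero, Matrix.cons_val_one, compl_apply, Fin.rev_lt_rev] at g1
    have g2' : σ ⟨k, by omega⟩ < σ ⟨i + 1, by omega⟩ := by
      simpa [compl_apply, Fin.rev_lt_rev] using g2
    have g1' : σ ⟨i + 1, by omega⟩ < σ ⟨i, by omega⟩ := g1
    show compl σ ⟨j, _⟩ ≤ compl σ ⟨k, _⟩
    rw [compl_apply, compl_apply, Fin.rev_le_rev]
    by_contra h3
    rw [not_le] at h3
    exact absurd (this h3 g2') (not_lt.2 g1'.le)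

end Pool.Agent.Lib.MP_668c10_co
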