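import Pool.Agent.Lib.MP_668c10_co.Patt

/-!
Q1 of MP_668c10_co.
-/

namespace Pool.Agent.Lib.MP_668c10_co

open List Polynomial

lemma reflect_sum {ι : Type*} (N : ℕ) (s : Finset ι) (f : ι → ℤ[X]) :
    reflect N (∑ i ∈ s, f i) = ∑ i ∈ s, reflect N (f i) := by
  classical
  induction s using Finset.induction_on with
  | empty => simp
  | insert a s ha ih => rw [Finset.sum_insert ha, Finset.sum_insert ha, reflect_add, ih]

open Classical in
lemma reflect_stat {ι : Type*} [Fintype ι] (N : ℕ) (P : ι → Prop) (u v : ι → ℕ)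
    (h : ∀ i, u i + v i = N) :
    reflect N (∑ i, if P i then (X : ℤ[X]) ^ u i else 0) = ∑ i, if P i then X ^ v i else 0 := by
  rw [reflect_sum]
  apply Finset.sum_congr rfl
  intro i _
  split_ifs
  · rw [reflect_monomial, revAt_le (by rw [← h i]; omega), ← h i, Nat.add_sub_cancel_left]
  · exact reflect_zero

open Classical in
lemma desPoly_single (n : ℕ) (p : Fin 4 → ℕ) :
    desPoly n {p} = ∑ σ : Equiv.Perm (Fin n), if ¬ Contains p σ then (X : ℤ[X]) ^ des σ else 0 := by
  rw [desPoly, Av, Finset.sum_filter]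
  apply Finset.sum_congr rfl
  intro σ _
  simp

open Classical in
lemma desPoly_compl (n : ℕ) (p : Fin 4 → ℕ) :
    desPoly n {p} = ∑ σ : Equiv.Perm (Fin n),
      if ¬ Contains p (compl σ) then (X : ℤ[X]) ^ des (compl σ) else 0 := by
  rw [desPoly_single]
  exact (Equiv.sum_comp compl _).symm

lemma asc_add_des_toL {n : ℕ} (σ : Equiv.Perm (Fin (n + 1))) :
    ascL (toL σ) + desL (toL σ) = n := by
  have h := length_toL σ
  cases hl : toL σ with
  | nil => rw [hl] at h; simp at h
  | cons x t => rw [asc_add_des]; rw [hl] at h; simpa using h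

theorem main : DesWilf {![1, 2, 4, 3]} {![3, 4, 1, 2]} := by
  classical
  intro m hm
  obtain ⟨n, rfl⟩ : ∃ n, m = n + 1 := ⟨m - 1, by omega⟩
  rw [desPoly_compl, desPoly_single]
  simp only [contains1243, contains3412, des_compl]
  simp only [des_eq_desL]
  have h1 := main_lists (X : ℤ[X]) n
  rw [← sum_perm (n + 1) (fun l => if av1 l then (X : ℤ[X]) ^ (ascL l + 1) else 0),
    ← sum_perm (n + 1) (fun l => if av2 l then (X : ℤ[X]) ^ (desL l + 1) else 0)] at h1
  have h2 : (X : ℤ[X]) * ∑ σ : Equiv.Perm (Fin (n + 1)),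
      (if av1 (toL σ) then (X : ℤ[X]) ^ ascL (toL σ) else 0) =
      X * ∑ σ : Equiv.Perm (Fin (n + 1)), if av2 (toL σ) then (X : ℤ[X]) ^ desL (toL σ) else 0 := by
    rw [Finset.mul_sum, Finset.mul_sum]
    convert h1 using 1
    · apply Finset.sum_congr rfl
      intro σ _
      split_ifs
      · rw [pow_succ']
      · simp
    · apply Finset.sum_congr rfl
      intro σ _
      split_ifs
      · rw [pow_succ']
      · simp
  have h3 := mul_left_cancel₀ (X_ne_zero (R := ℤ)) h2
  have h4 := congrArg (reflect n) h3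
  rw [reflect_stat n _ _ (fun σ => desL (toL σ)) (fun σ => asc_add_des_toL σ),
    reflect_stat n _ _ (fun σ => ascL (toL σ))
      (fun σ => by rw [add_comm]; exact asc_add_des_toL σ)] at h4
  exact h4.symm

end Pool.Agent.Lib.MP_668c10_co
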