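import Pool.Agent.Lib.MP_668c10_co.Alg

/-!
The generating trees (insertion of the maximum) for Q1 of MP_668c10_co.
-/

namespace Pool.Agent.Lib.MP_668c10_co

open List

/-- The elements of `t` smaller than `x` are weakly decreasing. -/
abbrev good (x : ℕ) (t : List ℕ) : Prop := t.Pairwise (fun u v => ¬ (u < v ∧ v < x))

/-- `t` is weakly decreasing. -/
abbrev dec (t : List ℕ) : Prop := t.Pairwise (fun u v => ¬ u < v)

/-- Length of the maximal decreasing suffix. -/
def sl : List ℕ → ℕ
  | [] => 0
  | (x :: t) => if dec (x :: t) then (x :: t).length else sl t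

/-- Number of ascents. -/
def ascL : List ℕ → ℕ
  | [] => 0
  | [_] => 0
  | (x :: y :: t) => ascL (y :: t) + (if x < y then 1 else 0)

/-- Number of (weak) descents. -/
def desL : List ℕ → ℕ
  | [] => 0
  | [_] => 0
  | (x :: y :: t) => desL (y :: t) + (if x < y then 0 else 1)

/-- Avoidance of `34-1-2` with `3, 4` adjacent. -/
def av1 : List ℕ → Prop
  | [] => True
  | [_] => True
  | (x :: y :: t) => (x < y → good x (y :: t)) ∧ av1 (y :: t)

/-- Avoidance of `43-1-2` with `4, 3` adjacent. -/
def av2 : List ℕ → Prop
  | [] => True
  | [_] => True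
  | (x :: y :: t) => (¬ x < y → good y t) ∧ av2 (y :: t)

/-- Alpha slots outside the suffix and the front, type 1. -/
def a1 : List ℕ → ℕ
  | [] => 0
  | [_] => 0
  | (x :: y :: t) => if dec (y :: t) then 0 else
      a1 (y :: t) + (if x < y ∧ good x (y :: t) then 1 else 0)

/-- Beta slots outside the suffix and the front, type 1. -/
def b1 : List ℕ → ℕ
  | [] => 0
  | [_] => 0
  | (x :: y :: t) => if dec (y :: t) then 0 else
      b1 (y :: t) + (if ¬ x < y ∧ good x (y :: t) then 1 else 0)

/-- Alpha slots outside the suffix and the front, type 2. -/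
def a2 : List ℕ → ℕ
  | [] => 0
  | [_] => 0
  | (x :: y :: t) => if dec (y :: t) then 0 else
      a2 (y :: t) + (if ¬ x < y ∧ good y t then 1 else 0)

/-- Beta slots outside the suffix and the front, type 2. -/
def b2 : List ℕ → ℕ
  | [] => 0
  | [_] => 0
  | (x :: y :: t) => if dec (y :: t) then 0 else
      b2 (y :: t) + (if x < y ∧ good y t then 1 else 0)

lemma mem_aux {M : ℕ} {t c : List ℕ} (hc : c ∈ permutations'Aux M t) (v : ℕ) :
    v ∈ c ↔ v = M ∨ v ∈ t := by
  induction t generalizing c with
  | nil => simp [permutations'Aux] at hc; subst hc; simp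
  | cons y t ih =>
    simp only [permutations'Aux, mem_cons, mem_map] at hc
    rcases hc with rfl | ⟨c', hc', rfl⟩
    · simp
    · simp only [mem_cons, ih hc']; tauto

lemma good_aux {M x : ℕ} {t c : List ℕ} (hx : x ≤ M) (ht : ∀ v ∈ t, v < M)
    (hc : c ∈ permutations'Aux M t) : good x c ↔ good x t := by
  induction t generalizing c with
  | nil => simp [permutations'Aux] at hc; subst hc; simp
  | cons y t ih =>
    simp only [permutations'Aux, mem_cons, mem_map] at hc
    rcases hc with rfl | ⟨c', hc', rfl⟩
    · rw [good, pairwise_cons]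
      constructor
      · exact fun h => h.2
      · exact fun h => ⟨fun v hv h' => absurd (ht v hv) (by omega), h⟩
    · have ht' : ∀ v ∈ t, v < M := fun v hv => ht v (mem_cons_of_mem _ hv)
      rw [good, good, pairwise_cons, pairwise_cons, ← good, ← good, ih ht' hc']
      constructor
      · exact fun h => ⟨fun v hv => h.1 v ((mem_aux hc' v).2 (Or.inr hv)), h.2⟩
      · refine fun h => ⟨fun v hv => ?_, h.2⟩
        rcases (mem_aux hc' v).1 hv with rfl | hv
        · omega
        · exact h.1 v hv

lemma not_dec_aux {M x : ℕ} {t c : List ℕ} (hx : x < M)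
    (hc : c ∈ permutations'Aux M t) : ¬ dec (x :: c) := by
  intro h
  rw [dec, pairwise_cons] at h
  exact h.1 M ((mem_aux hc M).2 (Or.inl rfl)) hx

lemma dec_front {M : ℕ} {t : List ℕ} (ht : ∀ v ∈ t, v < M) : dec (M :: t) ↔ dec t := by
  rw [dec, pairwise_cons]
  exact ⟨fun h => h.2, fun h => ⟨fun v hv => by have := ht v hv; omega, h⟩⟩

lemma good_front {M x : ℕ} {t : List ℕ} (hx : x ≤ M) (ht : ∀ v ∈ t, v < M) :
    good x (M :: t) ↔ good x t :=
  good_aux hx ht (by cases t <;> simp [permutations'Aux])

lemma good_of_dec {x : ℕ} {t : List ℕ} (h : dec t) : good x t :=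
  h.imp (fun h h' => h h'.1)

lemma not_lt_of_dec {x y : ℕ} {t : List ℕ} (h : dec (x :: y :: t)) : ¬ x < y :=
  (pairwise_cons.1 h).1 y (by simp)

lemma lt_of_dec_not_dec {x y : ℕ} {t : List ℕ} (h : dec (y :: t)) (h' : ¬ dec (x :: y :: t)) :
    x < y := by
  by_contra hxy
  apply h'
  rw [dec, pairwise_cons]
  refine ⟨fun v hv => ?_, h⟩
  rcases mem_cons.1 hv with rfl | hv
  · exact hxy
  · have := (pairwise_cons.1 h).1 v hv; omega

lemma good_top_iff {M : ℕ} {t : List ℕ} (ht : ∀ v ∈ t, v < M) : good M t ↔ dec t := by
  refine ⟨fun h => ?_, good_of_dec⟩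
  exact h.imp_of_mem (fun hu hv h h' => h ⟨h', ht _ hv⟩)

variable {K : Type*} [CommRing K]

open Classical in
theorem D1 (M : ℕ) (t : List ℕ) (x : ℕ) (hM : ∀ v ∈ x :: t, v < M) (hav : av1 (x :: t))
    (F : ℕ → ℕ → ℕ → K) :
    ((permutations'Aux M t).map (fun c => if av1 (x :: c) then
      F (a1 (x :: c)) (b1 (x :: c)) (sl (x :: c)) else 0)).sum =
    if dec (x :: t) then s1 F 0 0 (x :: t).length
    else step1 F (a1 (x :: t)) (b1 (x :: t)) (sl (x :: t)) := by
  induction t generalizing x F with
  | nil =>
    have hx : x < M := hM x (by simp)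
    simp [permutations'Aux, av1, a1, b1, sl, s1, hx, hx.not_ge]
  | cons y t ih =>
    have hx : x < M := hM x (by simp)
    have hy : y < M := hM y (by simp)
    have hyt : ∀ v ∈ y :: t, v < M := fun v hv => hM v (mem_cons_of_mem _ hv)
    have ht : ∀ v ∈ t, v < M := fun v hv => hyt v (mem_cons_of_mem _ hv)
    have hav' : av1 (y :: t) := hav.2
    rw [permutations'Aux, map_cons, sum_cons, map_map]
    -- the rest
    obtain ⟨F', hF'⟩ : ∃ F' : ℕ → ℕ → ℕ → K, F' = (fun a b l =>
        F (a + (if x < y ∧ good x (y :: t) then 1 else 0))
          (b + (if ¬ x < y ∧ good x (y :: t) then 1 else 0)) l) := ⟨_, rfl⟩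
    have hrest : ((permutations'Aux M t).map ((fun c => if av1 (x :: c) then
      F (a1 (x :: c)) (b1 (x :: c)) (sl (x :: c)) else 0) ∘ (cons y))) =
      ((permutations'Aux M t).map (fun c => if av1 (y :: c) then
        F' (a1 (y :: c)) (b1 (y :: c)) (sl (y :: c)) else 0)) := by
      apply map_congr_left
      intro c hc
      have hg : good x (y :: c) ↔ good x (y :: t) :=
        good_aux hx.le hyt (by simp [permutations'Aux, hc])
      have hd : ¬ dec (y :: c) := not_dec_aux hy hc
      have hd2 : ¬ dec (x :: y :: c) := fun h => hd (pairwise_cons.1 h).2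
      simp only [Function.comp_apply]
      have h1 : av1 (x :: y :: c) ↔ av1 (y :: c) := by
        rw [av1]
        refine ⟨fun h => h.2, fun h => ⟨fun hxy => hg.2 (hav.1 hxy), h⟩⟩
      have h2 : sl (x :: y :: c) = sl (y :: c) := by rw [sl, if_neg hd2]
      have h3 : a1 (x :: y :: c) = a1 (y :: c) +
          (if x < y ∧ good x (y :: t) then 1 else 0) := by
        rw [a1, if_neg hd]; simp only [hg]
      have h4 : b1 (x :: y :: c) = b1 (y :: c) +
          (if ¬ x < y ∧ good x (y :: t) then 1 else 0) := by
        rw [b1, if_neg hd]; simp only [hg]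
      rw [h2, h3, h4, hF']
      simp only [h1]
    rw [hrest, ih y hyt hav' F', hF']
    -- the first term
    have hdM : dec (M :: y :: t) ↔ dec (y :: t) := dec_front hyt
    have hgM : good x (M :: y :: t) ↔ good x (y :: t) := good_front hx.le hyt
    have hndx : ¬ dec (x :: M :: y :: t) := fun h => not_lt_of_dec h hx
    have hMy : ¬ M < y := by omega
    have f1 : av1 (x :: M :: y :: t) ↔ good x (y :: t) := by
      rw [av1, av1]
      constructor
      · exact fun h => hgM.1 (h.1 hx)
      · exact fun h => ⟨fun _ => hgM.2 h, fun h' => absurd h' hMy, hav'⟩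
    by_cases hd : dec (y :: t)
    · have hg : good x (y :: t) := good_of_dec hd
      have e1 : a1 (x :: M :: y :: t) = 0 := by rw [a1, if_pos (hdM.2 hd)]
      have e2 : b1 (x :: M :: y :: t) = 0 := by rw [b1, if_pos (hdM.2 hd)]
      have e3 : sl (x :: M :: y :: t) = (y :: t).length + 1 := by
        rw [sl, if_neg hndx, sl, if_pos (hdM.2 hd)]; simp
      rw [if_pos (f1.2 hg), e1, e2, e3, if_pos hd]
      by_cases hdx : dec (x :: y :: t)
      · have hxy := not_lt_of_dec hdx
        rw [if_pos hdx, length_cons (a := x), s1]
        simp only [hxy, false_and, if_false, not_false_iff, true_and, hg, if_true, add_zero]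
        congr 1
        generalize (y :: t).length = L
        have : ∀ (L b : ℕ), s1 (fun a b l => F a (b + 1) l) 0 b L = s1 F 0 (b + 1) L := by
          intro L
          induction L with
          | zero => intro b; rfl
          | succ L ih => intro b; simp only [s1, ih]
        exact this L 0
      · have hxy := lt_of_dec_not_dec hd hdx
        have e4 : a1 (x :: y :: t) = 0 := by rw [a1, if_pos hd]
        have e5 : b1 (x :: y :: t) = 0 := by rw [b1, if_pos hd]
        have e6 : sl (x :: y :: t) = (y :: t).length := by
          rw [sl, if_neg hdx, sl, if_pos hd]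
        rw [if_neg hdx, e4, e5, e6, step1]
        simp only [hxy, not_true, false_and, if_false, true_and, hg, if_true, add_zero]
        generalize (y :: t).length = L
        have : ∀ (L b : ℕ), s1 (fun a b l => F (a + 1) b l) 0 b L = s1 F 1 b L := by
          intro L
          induction L with
          | zero => intro b; rfl
          | succ L ih => intro b; simp only [s1, ih]
        rw [this L 0]
        push_cast
        ring
    · have hdx : ¬ dec (x :: y :: t) := fun h => hd (pairwise_cons.1 h).2
      have e1 : a1 (x :: M :: y :: t) = a1 (y :: t) + (if good x (y :: t) then 1 else 0) := by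
        rw [a1, if_neg (fun h => hd (hdM.1 h)), a1, if_neg hd]
        simp [hMy, hx, hgM]
      have e2 : b1 (x :: M :: y :: t) = b1 (y :: t) := by
        rw [b1, if_neg (fun h => hd (hdM.1 h)), b1, if_neg hd]
        have : ¬ good M (y :: t) := fun h => hd ((good_top_iff hyt).1 h)
        simp only [this, hx, hgM]
        simp
      have e3 : sl (x :: M :: y :: t) = sl (y :: t) := by
        rw [sl, if_neg hndx, sl, if_neg (fun h => hd (hdM.1 h))]
      have e4 : a1 (x :: y :: t) = a1 (y :: t) +
          (if x < y ∧ good x (y :: t) then 1 else 0) := by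
        rw [a1, if_neg hd]
      have e5 : b1 (x :: y :: t) = b1 (y :: t) +
          (if ¬ x < y ∧ good x (y :: t) then 1 else 0) := by
        rw [b1, if_neg hd]
      have e6 : sl (x :: y :: t) = sl (y :: t) := by
        rw [sl, if_neg hdx]
      rw [e1, e2, e3, e4, e5, e6, if_neg hd, if_neg hdx]
      simp only [f1]
      generalize a1 (y :: t) = a
      generalize b1 (y :: t) = b
      generalize sl (y :: t) = l
      have hA : ∀ (L a b : ℕ), s1 (fun a b l => F (a + 1) b l) a b L = s1 F (a + 1) b L := by
        intro L
        induction L with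
        | zero => intro a b; rfl
        | succ L ih => intro a b; simp only [s1, ih]
      have hB : ∀ (L a b : ℕ), s1 (fun a b l => F a (b + 1) l) a b L = s1 F a (b + 1) L := by
        intro L
        induction L with
        | zero => intro a b; rfl
        | succ L ih => intro a b; simp only [s1, ih]
      by_cases hg : good x (y :: t)
      · by_cases hxy : x < y
        · simp only [hg, hxy, if_true, and_true, not_true, if_false, add_zero, step1, hA]
          push_cast
          ring
        · simp only [hg, hxy, if_true, and_true, if_false, not_false_iff, add_zero, step1, hB]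
          rcases b with _ | b
          · simp only [Nat.add_sub_cancel]
            push_cast
            ring
          · simp only [Nat.add_sub_cancel]
            push_cast
            ring
      · have hxy : ¬ x < y := fun h => hg (hav.1 h)
        simp only [hg, hxy, and_false, if_false, add_zero, step1]
        simp

open Classical in
theorem D2 (M : ℕ) (t : List ℕ) (x : ℕ) (hM : ∀ v ∈ x :: t, v < M) (hav : av2 (x :: t))
    (F : ℕ → ℕ → ℕ → K) :
    ((permutations'Aux M t).map (fun c => if av2 (x :: c) then
      F (a2 (x :: c)) (b2 (x :: c)) (sl (x :: c)) else 0)).sum =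
    if dec (x :: t) then s2 F 0 0 (x :: t).length
    else step2 F (a2 (x :: t)) (b2 (x :: t)) (sl (x :: t)) := by
  induction t generalizing x F with
  | nil =>
    have hx : x < M := hM x (by simp)
    simp [permutations'Aux, av2, a2, b2, sl, s2, hx, hx.not_ge]
  | cons y t ih =>
    have hx : x < M := hM x (by simp)
    have hy : y < M := hM y (by simp)
    have hyt : ∀ v ∈ y :: t, v < M := fun v hv => hM v (mem_cons_of_mem _ hv)
    have ht : ∀ v ∈ t, v < M := fun v hv => hyt v (mem_cons_of_mem _ hv)
    have hav' : av2 (y :: t) := hav.2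
    rw [permutations'Aux, map_cons, sum_cons, map_map]
    -- the rest
    obtain ⟨F', hF'⟩ : ∃ F' : ℕ → ℕ → ℕ → K, F' = (fun a b l =>
        F (a + (if ¬ x < y ∧ good y t then 1 else 0))
          (b + (if x < y ∧ good y t then 1 else 0)) l) := ⟨_, rfl⟩
    have hrest : ((permutations'Aux M t).map ((fun c => if av2 (x :: c) then
      F (a2 (x :: c)) (b2 (x :: c)) (sl (x :: c)) else 0) ∘ (cons y))) =
      ((permutations'Aux M t).map (fun c => if av2 (y :: c) then
        F' (a2 (y :: c)) (b2 (y :: c)) (sl (y :: c)) else 0)) := by
      apply map_congr_left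
      intro c hc
      have hg : good y c ↔ good y t :=
        good_aux hy.le ht hc
      have hd : ¬ dec (y :: c) := not_dec_aux hy hc
      have hd2 : ¬ dec (x :: y :: c) := fun h => hd (pairwise_cons.1 h).2
      simp only [Function.comp_apply]
      have h1 : av2 (x :: y :: c) ↔ av2 (y :: c) := by
        rw [av2]
        refine ⟨fun h => h.2, fun h => ⟨fun hxy => hg.2 (hav.1 hxy), h⟩⟩
      have h2 : sl (x :: y :: c) = sl (y :: c) := by rw [sl, if_neg hd2]
      have h3 : a2 (x :: y :: c) = a2 (y :: c) +
          (if ¬ x < y ∧ good y t then 1 else 0) := by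
        rw [a2, if_neg hd]; simp only [hg]
      have h4 : b2 (x :: y :: c) = b2 (y :: c) +
          (if x < y ∧ good y t then 1 else 0) := by
        rw [b2, if_neg hd]; simp only [hg]
      rw [h2, h3, h4, hF']
      simp only [h1]
    rw [hrest, ih y hyt hav' F', hF']
    -- the first term
    have hdM : dec (M :: y :: t) ↔ dec (y :: t) := dec_front hyt
    have hndx : ¬ dec (x :: M :: y :: t) := fun h => not_lt_of_dec h hx
    have hMy : ¬ M < y := by omega
    have f1 : av2 (x :: M :: y :: t) ↔ good y t := by
      rw [av2, av2]
      constructor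
      · exact fun h => h.2.1 hMy
      · exact fun h => ⟨fun h' => absurd hx h', fun _ => h, hav'⟩
    by_cases hd : dec (y :: t)
    · have hg : good y t := good_of_dec (pairwise_cons.1 hd).2
      have e1 : a2 (x :: M :: y :: t) = 0 := by rw [a2, if_pos (hdM.2 hd)]
      have e2 : b2 (x :: M :: y :: t) = 0 := by rw [b2, if_pos (hdM.2 hd)]
      have e3 : sl (x :: M :: y :: t) = (y :: t).length + 1 := by
        rw [sl, if_neg hndx, sl, if_pos (hdM.2 hd)]; simp
      rw [if_pos (f1.2 hg), e1, e2, e3, if_pos hd]
      have hA : ∀ (L a b : ℕ), s2 (fun a b l => F (a + 1) b l) a b L = s2 F (a + 1) b L := by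
        intro L
        induction L with
        | zero => intro a b; rfl
        | succ L ih => intro a b; simp only [s2, ih]
      have hB : ∀ (L a b : ℕ), s2 (fun a b l => F a (b + 1) l) a b L = s2 F a (b + 1) L := by
        intro L
        induction L with
        | zero => intro a b; rfl
        | succ L ih => intro a b; simp only [s2, ih]
      by_cases hdx : dec (x :: y :: t)
      · have hxy := not_lt_of_dec hdx
        rw [if_pos hdx, length_cons (a := x), s2]
        simp only [hxy, false_and, if_false, not_false_iff, true_and, hg, if_true, add_zero, hA]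
      · have hxy := lt_of_dec_not_dec hd hdx
        have e4 : a2 (x :: y :: t) = 0 := by rw [a2, if_pos hd]
        have e5 : b2 (x :: y :: t) = 0 := by rw [b2, if_pos hd]
        have e6 : sl (x :: y :: t) = (y :: t).length := by
          rw [sl, if_neg hdx, sl, if_pos hd]
        rw [if_neg hdx, e4, e5, e6, step2]
        simp only [hxy, not_true, false_and, if_false, true_and, hg, if_true, add_zero, hB]
        push_cast
        ring
    · have hdx : ¬ dec (x :: y :: t) := fun h => hd (pairwise_cons.1 h).2
      have hgM : ¬ good M (y :: t) := fun h => hd ((good_top_iff hyt).1 h)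
      have e1 : a2 (x :: M :: y :: t) = a2 (y :: t) + (if good y t then 1 else 0) := by
        rw [a2, if_neg (fun h => hd (hdM.1 h)), a2, if_neg hd]
        simp [hMy, hx]
      have e2 : b2 (x :: M :: y :: t) = b2 (y :: t) := by
        rw [b2, if_neg (fun h => hd (hdM.1 h)), b2, if_neg hd]
        simp only [hgM, hMy]
        simp
      have e3 : sl (x :: M :: y :: t) = sl (y :: t) := by
        rw [sl, if_neg hndx, sl, if_neg (fun h => hd (hdM.1 h))]
      have e4 : a2 (x :: y :: t) = a2 (y :: t) +
          (if ¬ x < y ∧ good y t then 1 else 0) := by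
        rw [a2, if_neg hd]
      have e5 : b2 (x :: y :: t) = b2 (y :: t) +
          (if x < y ∧ good y t then 1 else 0) := by
        rw [b2, if_neg hd]
      have e6 : sl (x :: y :: t) = sl (y :: t) := by
        rw [sl, if_neg hdx]
      rw [e1, e2, e3, e4, e5, e6, if_neg hd, if_neg hdx]
      simp only [f1]
      generalize a2 (y :: t) = a
      generalize b2 (y :: t) = b
      generalize sl (y :: t) = l
      have hA : ∀ (L a b : ℕ), s2 (fun a b l => F (a + 1) b l) a b L = s2 F (a + 1) b L := by
        intro L
        induction L with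
        | zero => intro a b; rfl
        | succ L ih => intro a b; simp only [s2, ih]
      have hB : ∀ (L a b : ℕ), s2 (fun a b l => F a (b + 1) l) a b L = s2 F a (b + 1) L := by
        intro L
        induction L with
        | zero => intro a b; rfl
        | succ L ih => intro a b; simp only [s2, ih]
      by_cases hg : good y t
      · by_cases hxy : x < y
        · simp only [hg, hxy, if_true, and_true, not_true, if_false, add_zero, step2, hB]
          rcases b with _ | b
          · simp only [Nat.add_sub_cancel]
            push_cast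
            ring
          · simp only [Nat.add_sub_cancel]
            push_cast
            ring
        · simp only [hg, hxy, if_true, and_true, if_false, not_false_iff, add_zero, step2, hA]
          push_cast
          ring
      · have hxy : x < y := by
          by_contra h
          exact hg (hav.1 h)
        simp only [hg, hxy, and_false, if_false, add_zero, step2]
        simp

end Pool.Agent.Lib.MP_668c10_co
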